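import Mathlib
import Pool.Agent.R958.Animal

/-!
# Random rays on the square lattice with infinite second moment and positive critical intensity

If `r ↦ r · E [L; L ≥ r]` is bounded then `λ_c > 0`. This holds for the law
`P (L = ℓ) = c / ℓ ^ 3`, `ℓ ≥ 1`, for which `E |H| ^ 2 = ∞`.
-/

set_option autoImplicit false
open MeasureTheory ProbabilityTheory
open scoped ENNReal NNReal BigOperators

namespace Pool.Agent.Results.MP_04d7a1_pr.RaysNoPercolation

/-! ### Definitions used in the statement -/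

/-- The nearest-neighbour graph of the square lattice. -/
def squareLattice : SimpleGraph (ℤ × ℤ) where
  Adj a b := |a.1 - b.1| + |a.2 - b.2| = 1
  symm := ⟨fun a b h => by
    rw [abs_sub_comm b.1 a.1, abs_sub_comm b.2 a.2]
    exact h⟩
  loopless := ⟨fun a h => by simp at h⟩

/-- A set of vertices percolates if the subgraph of the square lattice it induces has an infinite
connected component. -/
def Percolates (S : Set (ℤ × ℤ)) : Prop :=
  ∃ C : (squareLattice.induce S).ConnectedComponent, C.supp.Infinite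

/-- The four unit vectors. -/
def unitVec : Fin 4 → ℤ × ℤ := ![(1, 0), (-1, 0), (0, 1), (0, -1)]

/-- The ray animal `{o, e, 2e, …, Le}` with `L` steps in the direction number `i`. -/
def rayAnimal (i : Fin 4) (L : ℕ) : Set (ℤ × ℤ) := {z | ∃ j : ℕ, j ≤ L ∧ z = j • unitVec i}

/-- The sample space. For `ω = (N, h)`, the number of animals rooted at `x` is `N x`, and the
`i`-th animal rooted at `x` has direction number `(h (x, i)).1` and length `(h (x, i)).2`. -/
abbrev Sample : Type := (ℤ × ℤ → ℕ) × ((ℤ × ℤ) × ℕ → Fin 4 × ℕ)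

/-- The law of one animal: uniform direction and independent length with law `m`. -/
noncomputable def animalLaw (m : PMF ℕ) : Measure (Fin 4 × ℕ) :=
  (PMF.uniformOfFintype (Fin 4)).toMeasure.prod m.toMeasure

instance (m : PMF ℕ) : IsProbabilityMeasure (animalLaw m) := by
  unfold animalLaw; infer_instance

/-- The law of the model: independent Poisson numbers of mean `t` at the vertices and independent
animals. -/
noncomputable def rayLaw (t : ℝ≥0) (m : PMF ℕ) : Measure Sample :=
  (Measure.infinitePi (fun _ : ℤ × ℤ => (poissonPMF t).toMeasure)).prod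
    (Measure.infinitePi (fun _ : (ℤ × ℤ) × ℕ => animalLaw m))

/-- The occupied set: the union of all animals, translated to their roots. -/
def occupied (ω : Sample) : Set (ℤ × ℤ) :=
  {z | ∃ x : ℤ × ℤ, ∃ i : ℕ, i < ω.1 x ∧
    z - x ∈ rayAnimal (ω.2 (x, i)).1 (ω.2 (x, i)).2}

/-- The critical intensity `inf {t > 0 : P (the occupied set percolates) > 0}`, in `[0, ∞]`. -/
noncomputable def critical (m : PMF ℕ) : ℝ≥0∞ :=
  ⨅ t : {t : ℝ≥0 // 0 < t ∧ 0 < rayLaw t m {ω | Percolates (occupied ω)}}, ((t : ℝ≥0) : ℝ≥0∞)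

/-! ### Proof -/

open Pool.Agent.H592 Pool.Agent.R958.Animal

noncomputable section

def phi (p : ℤ × ℤ) : V 2 := ![p.1, p.2]
def phiInv (y : V 2) : ℤ × ℤ := (y 0, y 1)

/-- the identification of the two lattices -/
def phiE : (ℤ × ℤ) ≃ V 2 where
  toFun := phi
  invFun := phiInv
  left_inv _ := rfl
  right_inv y := by funext j; fin_cases j <;> rfl

/-- the animal as a finite set -/
def shp (a : Fin 4 × ℕ) : Finset (V 2) :=
  (Finset.range (a.2 + 1)).image fun j => phi (j • unitVec a.1)

theorem mem_shp (a : Fin 4 × ℕ) (z : ℤ × ℤ) : phi z ∈ shp a ↔ z ∈ rayAnimal a.1 a.2 := by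
  unfold shp rayAnimal
  simp only [Finset.mem_image, Finset.mem_range, Set.mem_ofPred_eq]
  constructor
  · rintro ⟨j, hj, h⟩
    exact ⟨j, by omega, (phiE.injective h).symm⟩
  · rintro ⟨j, hj, h⟩
    exact ⟨j, by omega, by rw [h]⟩

theorem phi_sub (p q : ℤ × ℤ) : phi (p - q) = phi p - phi q := by
  funext j
  fin_cases j <;> rfl

theorem mem_occupied (ω : Sample) (a : ℤ × ℤ) (h : a ∈ occupied ω) :
    phi a ∈ occ (Qs (xiM phiE shp) ω) := by
  obtain ⟨x, i, hi, hz⟩ := h
  refine ⟨(phi x, shp (ω.2 (x, i))), ?_, ?_⟩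
  · show xiM phiE shp _ ω = true
    rw [xiM_true_iff]
    exact ⟨i, hi, rfl⟩
  · show phi a - phi x ∈ shp _
    rw [← phi_sub, mem_shp]
    exact hz

theorem adj_nb (a b : ℤ × ℤ) (h : squareLattice.Adj a b) : nb (phi a) (phi b) := by
  unfold nb
  rw [Fin.sum_univ_two]
  exact h

theorem perc_of_percolates (S : Set (ℤ × ℤ)) (U : Set (V 2))
    (hU : ∀ a, a ∈ S → phi a ∈ U) (h : Percolates S) : perc U := by
  obtain ⟨C, hC⟩ := h
  induction C using SimpleGraph.ConnectedComponent.ind with
  | h v =>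
    refine ⟨phi v.1, ?_⟩
    have hinj : Function.Injective (fun z : S => phi z.1) := by
      intro a b hab
      exact Subtype.ext (phiE.injective hab)
    refine Set.Infinite.mono ?_ (hC.image hinj.injOn)
    rintro _ ⟨z, hz, rfl⟩
    have hr : (squareLattice.induce S).Reachable v z := by
      rw [SimpleGraph.ConnectedComponent.mem_supp_iff, SimpleGraph.ConnectedComponent.eq] at hz
      exact hz.symm
    rw [SimpleGraph.reachable_iff_reflTransGen] at hr
    show conn U (phi v.1) (phi z.1)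
    clear hz
    induction hr with
    | refl => exact Relation.ReflTransGen.refl
    | tail _ h2 ih =>
      rename_i y z _
      refine Relation.ReflTransGen.tail ih ⟨hU _ y.2, hU _ z.2, ?_⟩
      exact adj_nb _ _ h2

/-- coordinates of the points of a ray -/
theorem shp_coord (a : Fin 4 × ℕ) : ∃ j0 : Fin 2, ∀ z ∈ shp a, ∀ j, |z j| ≤
    if j = j0 then (a.2 : ℤ) else 0 := by
  obtain ⟨e, L⟩ := a
  refine ⟨if e.1 < 2 then 0 else 1, ?_⟩
  intro z hz j
  unfold shp at hz
  rw [Finset.mem_image] at hz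
  obtain ⟨k, hk, rfl⟩ := hz
  rw [Finset.mem_range] at hk
  have hk' : (k : ℤ) ≤ L := by
    have : k ≤ L := by simpa using Nat.lt_succ_iff.mp hk
    exact_mod_cast this
  fin_cases e <;> fin_cases j <;> simp [phi, unitVec, hk']

theorem zero_mem_shp (a : Fin 4 × ℕ) : (0 : V 2) ∈ shp a := by
  unfold shp
  rw [Finset.mem_image]
  refine ⟨0, by simp, ?_⟩
  funext j
  fin_cases j <;> simp [phi]

theorem small_shp (a : Fin 4 × ℕ) (r : ℕ) (h : a.2 < r) : small r (shp a) := by
  obtain ⟨e, L⟩ := a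
  intro z hz z' hz' j
  unfold shp at hz hz'
  rw [Finset.mem_image] at hz hz'
  obtain ⟨k, hk, rfl⟩ := hz
  obtain ⟨k', hk', rfl⟩ := hz'
  rw [Finset.mem_range] at hk hk'
  have h0 : (0 : ℤ) < r := by
    have : 0 < r := by omega
    exact_mod_cast this
  simp only at hk hk' h
  have h1 : |(k : ℤ) - k'| < r := by
    rw [abs_lt]
    constructor <;> omega
  have h2 : |(k' : ℤ) - k| < r := by rw [abs_sub_comm]; exact h1
  have h3 : |-(k : ℤ) + k'| < r := by
    rw [neg_add_eq_sub]; exact h2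
  fin_cases e <;> fin_cases j <;> simp [phi, unitVec, h3, sub_eq_add_neg] <;>
    first
      | (have := h1; rwa [sub_eq_add_neg] at this)
      | exact h3
      | omega

/-- number of roots from which a ray meets a box -/
theorem count_touch (a : Fin 4 × ℕ) (c : V 2) (R : ℕ) :
    ∑' x, one? (touches (x, shp a) c R) ≤ ((2 * R + 1 : ℕ) : ℝ≥0∞) * ((2 * (R + a.2) + 1 : ℕ) : ℝ≥0∞) := by
  classical
  obtain ⟨j0, hj0⟩ := shp_coord a
  set B : Finset (V 2) := Finset.Icc
    (fun j => c j - (R : ℤ) - if j = j0 then (a.2 : ℤ) else 0)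
    (fun j => c j + (R : ℤ) + if j = j0 then (a.2 : ℤ) else 0) with hB
  have h : ∀ x : V 2, one? (touches (x, shp a) c R) ≤ ind B x := by
    intro x
    by_cases hx : touches (x, shp a) c R
    · obtain ⟨z, hz, hzB⟩ := hx
      simp only at hz hzB
      have : x ∈ B := by
        rw [hB, Finset.mem_Icc, Pi.le_def, Pi.le_def]
        rw [mem_Bx] at hzB
        constructor
        · intro j
          have h1 := hj0 z hz j
          have h2 := hzB j
          simp only [Pi.add_apply] at h2
          rw [abs_le] at h1 h2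
          linarith [h1.1, h1.2, h2.1, h2.2]
        · intro j
          have h1 := hj0 z hz j
          have h2 := hzB j
          simp only [Pi.add_apply] at h2
          rw [abs_le] at h1 h2
          linarith [h1.1, h1.2, h2.1, h2.2]
      unfold ind
      rw [if_pos this]
      exact one?_le_one _
    · rw [one?_false hx]; exact zero_le
  calc ∑' x, one? (touches (x, shp a) c R) ≤ ∑' x, ind B x := ENNReal.tsum_le_tsum h
    _ = (B.card : ℝ≥0∞) := tsum_ind B
    _ = _ := by
        rw [hB, Pi.card_Icc, Fin.prod_univ_two]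
        simp only [Int.card_Icc]
        fin_cases j0
        · have e1 : (c 0 + (R : ℤ) + (if (0 : Fin 2) = 0 then (a.2 : ℤ) else 0) + 1 -
              (c 0 - (R : ℤ) - if (0 : Fin 2) = 0 then (a.2 : ℤ) else 0)).toNat
              = 2 * (R + a.2) + 1 := by
            rw [if_pos rfl]; omega
          have e2 : (c 1 + (R : ℤ) + (if (1 : Fin 2) = 0 then (a.2 : ℤ) else 0) + 1 -
              (c 1 - (R : ℤ) - if (1 : Fin 2) = 0 then (a.2 : ℤ) else 0)).toNat = 2 * R + 1 := by
            rw [if_neg (by decide)]; omega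
          simp only [Fin.zero_eta, Fin.isValue] at *
          rw [e1, e2]
          push_cast
          ring
        · have e1 : (c 0 + (R : ℤ) + (if (0 : Fin 2) = 1 then (a.2 : ℤ) else 0) + 1 -
              (c 0 - (R : ℤ) - if (0 : Fin 2) = 1 then (a.2 : ℤ) else 0)).toNat
              = 2 * R + 1 := by
            rw [if_neg (by decide)]; omega
          have e2 : (c 1 + (R : ℤ) + (if (1 : Fin 2) = 1 then (a.2 : ℤ) else 0) + 1 -
              (c 1 - (R : ℤ) - if (1 : Fin 2) = 1 then (a.2 : ℤ) else 0)).toNat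
              = 2 * (R + a.2) + 1 := by
            rw [if_pos rfl]; omega
          simp only [Fin.mk_one, Fin.isValue] at *
          rw [e1, e2]
          push_cast
          ring

/-- the weight of a key -/
def wt (m : PMF ℕ) (k : V 2 × Finset (V 2)) : ℝ≥0∞ := animalLaw m (shp ⁻¹' {k.2})

theorem animalLaw_singleton (m : PMF ℕ) (a : Fin 4 × ℕ) :
    animalLaw m {a} = 4⁻¹ * m a.2 := by
  obtain ⟨e, L⟩ := a
  unfold animalLaw
  rw [← Set.singleton_prod_singleton, Measure.prod_prod,
    PMF.toMeasure_apply_singleton _ _ (MeasurableSet.singleton _),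
    PMF.toMeasure_apply_singleton _ _ (MeasurableSet.singleton _)]
  simp [PMF.uniformOfFintype_apply]

theorem sum_marks (m : PMF ℕ) (g : ℕ → ℝ≥0∞) :
    ∑' a : Fin 4 × ℕ, animalLaw m {a} * g a.2 = ∑' n : ℕ, m n * g n := by
  rw [ENNReal.tsum_prod']
  have h1 : ∀ e : Fin 4, ∑' n : ℕ, animalLaw m {(e, n)} * g n = 4⁻¹ * ∑' n : ℕ, m n * g n := by
    intro e
    rw [← ENNReal.tsum_mul_left]
    exact tsum_congr fun n => by rw [animalLaw_singleton, mul_assoc]
  calc ∑' e : Fin 4, ∑' n : ℕ, animalLaw m {(e, n)} * g (e, n).2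
      = ∑' _ : Fin 4, 4⁻¹ * ∑' n : ℕ, m n * g n := tsum_congr h1
    _ = 4 * (4⁻¹ * ∑' n : ℕ, m n * g n) := by
        rw [tsum_fintype, Finset.sum_const, Finset.card_univ, Fintype.card_fin, nsmul_eq_mul]
        norm_num
    _ = _ := by
        rw [← mul_assoc, ENNReal.mul_inv_cancel (by norm_num) (by norm_num), one_mul]

/-- the mean number of bad rays -/
theorem sum_bad (m : PMF ℕ) (c : V 2) (r : ℕ) (hr : 1 ≤ r) :
    ∑' k, wt m k * one? (bad c r k)
      ≤ 5000 * ((r : ℝ≥0∞) * ∑' n : ℕ, if r ≤ n then (n : ℝ≥0∞) * m n else 0) := by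
  unfold wt
  rw [sum_keys shp (animalLaw m) fun k => one? (bad c r k)]
  have h : ∀ a : Fin 4 × ℕ, animalLaw m {a} * ∑' x, one? (bad c r (x, shp a))
      ≤ animalLaw m {a} * (fun n : ℕ => if r ≤ n then 5000 * ((r : ℝ≥0∞) * n) else 0) a.2 := by
    intro a
    refine mul_le_mul' le_rfl ?_
    by_cases hra : r ≤ a.2
    · simp only [hra, if_true]
      calc ∑' x, one? (bad c r (x, shp a)) ≤ ∑' x, one? (touches (x, shp a) c (24 * r)) :=
            ENNReal.tsum_le_tsum fun x => one?_mono fun h => h.1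
        _ ≤ _ := count_touch a c (24 * r)
        _ ≤ 5000 * ((r : ℝ≥0∞) * a.2) := by
            have : (2 * (24 * r) + 1) * (2 * (24 * r + a.2) + 1) ≤ 5000 * (r * a.2) := by
              calc (2 * (24 * r) + 1) * (2 * (24 * r + a.2) + 1)
                  ≤ (49 * r) * (51 * a.2) := Nat.mul_le_mul (by omega) (by omega)
                _ = 2499 * (r * a.2) := by ring
                _ ≤ 5000 * (r * a.2) := Nat.mul_le_mul_right _ (by norm_num)
            exact_mod_cast this
    · have h0 : ∀ x, one? (bad c r (x, shp a)) = 0 := by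
        intro x
        refine one?_false ?_
        rintro ⟨_, h | h⟩
        · exact h (zero_mem_shp a)
        · exact h (small_shp a r (by omega))
      simp [h0]
  refine (ENNReal.tsum_le_tsum h).trans ?_
  rw [sum_marks m fun n : ℕ => if r ≤ n then 5000 * ((r : ℝ≥0∞) * n) else 0,
    ← ENNReal.tsum_mul_left, ← ENNReal.tsum_mul_left]
  refine ENNReal.tsum_le_tsum fun n => ?_
  split_ifs
  · exact le_of_eq (by ring)
  · simp

theorem sum_box (m : PMF ℕ) (c : V 2) :
    ∑' k, wt m k * one? (k.1 ∈ Bx c 3) ≤ ENNReal.ofReal (7 ^ 2) := by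
  unfold wt
  rw [sum_keys shp (animalLaw m) fun k => one? (k.1 ∈ Bx c 3)]
  have h : ∑' x : V 2, one? (x ∈ Bx c 3) = 49 := by
    have : ∀ x : V 2, one? (x ∈ Bx c 3) = ind (Bx c 3) x := by
      intro x
      unfold one? ind
      by_cases hx : x ∈ Bx c 3
      · simp [hx]
      · simp [hx]
    simp_rw [this]
    rw [tsum_ind, card_Bx]
    norm_num
  simp only [h]
  have h2 := sum_marks m fun _ => 49
  rw [h2, ENNReal.tsum_mul_right, m.tsum_coe]
  norm_num

/-- **Criterion for a positive critical intensity.** -/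
theorem critical_pos (m : PMF ℕ) (C : ℝ≥0∞) (hC : C ≠ ⊤)
    (h : ∀ r : ℕ, 1 ≤ r → (r : ℝ≥0∞) * ∑' n : ℕ, (if r ≤ n then (n : ℝ≥0∞) * m n else 0) ≤ C) :
    0 < critical m := by
  obtain ⟨v, hv, hmain⟩ := upper_gen (d := 2) (wt m) (5000 * C).toReal
    (fun c r hr => by
      rw [ENNReal.ofReal_toReal (ENNReal.mul_ne_top (by norm_num) hC)]
      exact (sum_bad m c r hr).trans (mul_le_mul' le_rfl (h r hr)))
    (sum_box m)
  have key : ∀ t : ℝ≥0, (t : ℝ) ≤ v → rayLaw t m {ω | Percolates (occupied ω)} = 0 := by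
    intro t ht
    have hsub : {ω | Percolates (occupied ω)} ⊆ {ω | perc (occ (Qs (xiM phiE shp) ω))} := by
      intro ω hω
      exact perc_of_percolates _ _ (fun a ha => mem_occupied ω a ha) hω
    refine measure_mono_null hsub ?_
    refine hmain _ (markedLaw (ℤ × ℤ) t (animalLaw m)) (xiM phiE shp) (xiM_measurable phiE shp)
      (xiM_indep phiE shp t (animalLaw m)) (fun k => ?_)
    rw [xiM_prob phiE shp t (animalLaw m) k]
    set q := animalLaw m (shp ⁻¹' {k.2}) with hq
    have hqt : q ≠ ⊤ := measure_ne_top _ _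
    have hq0 : 0 ≤ q.toReal := ENNReal.toReal_nonneg
    calc ENNReal.ofReal (1 - Real.exp (-(t * q.toReal)))
        ≤ ENNReal.ofReal (v * q.toReal) := by
          refine ENNReal.ofReal_le_ofReal ?_
          have := Real.add_one_le_exp (-(t * q.toReal))
          nlinarith
      _ = ENNReal.ofReal v * q := by
          rw [ENNReal.ofReal_mul hv.le, ENNReal.ofReal_toReal hqt]
  refine lt_of_lt_of_le (ENNReal.ofReal_pos.mpr hv) (le_iInf ?_)
  rintro ⟨t, ht0, ht⟩
  by_contra hlt
  push Not at hlt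
  have htv : (t : ℝ) ≤ v := by
    have h1 : (t : ℝ≥0∞) ≤ ENNReal.ofReal v := hlt.le
    have h2 := ENNReal.toReal_mono ENNReal.ofReal_ne_top h1
    rwa [ENNReal.toReal_ofReal hv.le, ENNReal.coe_toReal] at h2
  rw [key t htv] at ht
  exact lt_irrefl _ ht

/-- the cubic weights -/
def cub (n : ℕ) : ℝ := 1 / (n : ℝ) ^ 3

theorem cub_summable : Summable cub := Real.summable_one_div_nat_pow.mpr (by norm_num)

theorem tail_bound (r : ℕ) (hr : 1 ≤ r) :
    (r : ℝ) * ∑' n : ℕ, (if r ≤ n then (n : ℝ) * cub n else 0) ≤ 3 ∧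
      Summable fun n : ℕ => (if r ≤ n then (n : ℝ) * cub n else 0) := by
  have hr0 : (1 : ℝ) ≤ r := by exact_mod_cast hr
  -- telescoping bound
  have hterm : ∀ n : ℕ, 1 ≤ n → (n : ℝ) * cub n ≤ 2 * (1 / (n : ℝ) - 1 / ((n : ℝ) + 1)) := by
    intro n hn
    have hn0 : (1 : ℝ) ≤ n := by exact_mod_cast hn
    unfold cub
    have h1 : (n : ℝ) * (1 / (n : ℝ) ^ 3) = 1 / (n : ℝ) ^ 2 := by field_simp
    have h2 : 2 * (1 / (n : ℝ) - 1 / ((n : ℝ) + 1)) = 2 / ((n : ℝ) * (n + 1)) := by
      field_simp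
      ring
    rw [h1, h2, div_le_div_iff₀ (by positivity) (by positivity)]
    nlinarith
  set f : ℕ → ℝ := fun n => if r ≤ n then (n : ℝ) * cub n else 0 with hf
  have hf0 : ∀ n, 0 ≤ f n := by
    intro n
    simp only [hf]
    split_ifs
    · unfold cub; positivity
    · exact le_rfl
  have hpart : ∀ N : ℕ, ∑ n ∈ Finset.range N, f n ≤ 2 / (r : ℝ) := by
    intro N
    have hb : ∀ N : ℕ, ∑ n ∈ Finset.range (r + N), f n ≤ 2 * (1 / (r : ℝ) - 1 / ((r : ℝ) + N)) := by
      intro N
      induction N with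
      | zero =>
        rw [Finset.sum_eq_zero]
        · simp
        · intro n hn
          rw [Finset.mem_range] at hn
          simp only [hf]
          rw [if_neg (by omega)]
      | succ N ih =>
        rw [← add_assoc, Finset.sum_range_succ]
        have h1 : f (r + N) ≤ 2 * (1 / ((r : ℝ) + N) - 1 / ((r : ℝ) + N + 1)) := by
          simp only [hf]
          rw [if_pos (by omega)]
          have := hterm (r + N) (by omega)
          push_cast at this
          exact_mod_cast this
        push_cast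
        rw [← add_assoc]
        linarith
    refine (Finset.sum_le_sum_of_subset_of_nonneg (Finset.range_mono (Nat.le_add_left N r))
      fun n _ _ => hf0 n).trans ((hb N).trans ?_)
    have : 0 ≤ 1 / ((r : ℝ) + N) := by positivity
    have h2 : 2 / (r : ℝ) = 2 * (1 / (r : ℝ)) := by ring
    rw [h2]
    linarith
  have hsum : Summable f := summable_of_sum_range_le hf0 hpart
  refine ⟨?_, hsum⟩
  have h1 : ∑' n, f n ≤ 2 / (r : ℝ) := Real.tsum_le_of_sum_range_le hf0 hpart
  calc (r : ℝ) * ∑' n, f n ≤ r * (2 / r) := by gcongr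
    _ = 2 := by field_simp
    _ ≤ 3 := by norm_num

end

/-- **An infinite second moment does not force the critical intensity to vanish.** For the length
law `P (L = ℓ) = c / ℓ ^ 3` on the positive integers, `E |H| ^ 2 = ∞` and `λ_c > 0`. -/
theorem result :
    ∃ m : PMF ℕ, m 0 = 0 ∧ (∃ c : ℝ, 0 < c ∧ ∀ ℓ : ℕ, 1 ≤ ℓ → (m ℓ).toReal = c / (ℓ : ℝ) ^ 3) ∧
      ∑' ℓ : ℕ, ((ℓ : ℝ≥0∞) + 1) ^ 2 * m ℓ = ⊤ ∧ 0 < critical m := by
  have hcub0 : ∀ n, 0 ≤ cub n := fun n => by unfold cub; positivity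
  have hZ0 : ∑' n, ENNReal.ofReal (cub n) ≠ 0 := by
    intro h
    rw [ENNReal.tsum_eq_zero] at h
    have := h 1
    simp [cub] at this
  have hZ1 : ∑' n, ENNReal.ofReal (cub n) ≠ ⊤ := cub_summable.tsum_ofReal_ne_top
  set Z := ∑' n, ENNReal.ofReal (cub n) with hZ
  have hc0 : 0 < (Z⁻¹).toReal := ENNReal.toReal_pos (ENNReal.inv_ne_zero.mpr hZ1)
    (ENNReal.inv_ne_top.mpr hZ0)
  have hval : ∀ n, (PMF.normalize (fun n => ENNReal.ofReal (cub n)) hZ0 hZ1) n
      = ENNReal.ofReal (cub n) * Z⁻¹ := fun n => PMF.normalize_apply _ _ _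
  refine ⟨PMF.normalize (fun n => ENNReal.ofReal (cub n)) hZ0 hZ1, ?_, ⟨(Z⁻¹).toReal, hc0,
    fun n _ => ?_⟩, ?_, ?_⟩
  · rw [hval]
    simp [cub]
  · rw [hval, ENNReal.toReal_mul, ENNReal.toReal_ofReal (hcub0 n)]
    unfold cub
    ring
  · -- infinite second moment
    have hle : ∀ n : ℕ, ENNReal.ofReal (1 / ((n : ℝ) + 1)) * Z⁻¹ ≤
        (((n + 1 : ℕ) : ℝ≥0∞) + 1) ^ 2 *
          (PMF.normalize (fun n => ENNReal.ofReal (cub n)) hZ0 hZ1) (n + 1) := by
      intro n
      rw [hval, ← mul_assoc]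
      gcongr
      have h1 : (((n + 1 : ℕ) : ℝ≥0∞) + 1) ^ 2 = ENNReal.ofReal (((n : ℝ) + 2) ^ 2) := by
        rw [ENNReal.ofReal_pow (by positivity)]
        congr 1
        rw [ENNReal.ofReal_add (by positivity) (by norm_num), ENNReal.ofReal_natCast]
        push_cast
        rw [add_assoc]
        norm_num
      rw [h1, ← ENNReal.ofReal_mul (by positivity)]
      refine ENNReal.ofReal_le_ofReal ?_
      unfold cub
      push_cast
      have h2 : ((n : ℝ) + 2) ^ 2 * (1 / ((n : ℝ) + 1) ^ 3) = ((n : ℝ) + 2) ^ 2 / ((n : ℝ) + 1) ^ 3 := by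
        ring
      rw [h2, div_le_div_iff₀ (by positivity) (by positivity)]
      have hn : (0 : ℝ) ≤ n := by positivity
      nlinarith [sq_nonneg ((n : ℝ) + 1), mul_nonneg hn (sq_nonneg ((n : ℝ) + 1))]
    have hinf : ∑' n : ℕ, ENNReal.ofReal (1 / ((n : ℝ) + 1)) = ⊤ := by
      by_contra hne
      have hs : Summable fun n : ℕ => (1 / ((n : ℝ) + 1)) := by
        have := ENNReal.summable_toReal hne
        refine this.congr fun n => ?_
        rw [ENNReal.toReal_ofReal (by positivity)]
      have h2 : Summable (fun n : ℕ => 1 / (((n + 1 : ℕ) : ℝ))) := by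
        refine hs.congr fun n => ?_
        push_cast
        rfl
      rw [summable_nat_add_iff (f := fun k : ℕ => 1 / (k : ℝ)) 1] at h2
      exact Real.not_summable_one_div_natCast h2
    have h3 : ∑' n : ℕ, ENNReal.ofReal (1 / ((n : ℝ) + 1)) * Z⁻¹ = ⊤ := by
      rw [ENNReal.tsum_mul_right, hinf]
      exact ENNReal.top_mul (ENNReal.inv_ne_zero.mpr hZ1)
    rw [eq_top_iff, ← h3]
    refine (ENNReal.tsum_le_tsum hle).trans ?_
    exact ENNReal.tsum_comp_le_tsum_of_injective (add_left_injective 1)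
      (fun ℓ : ℕ => ((ℓ : ℝ≥0∞) + 1) ^ 2 *
        (PMF.normalize (fun n => ENNReal.ofReal (cub n)) hZ0 hZ1) ℓ)
  · refine critical_pos _ (ENNReal.ofReal 3 * Z⁻¹)
      (ENNReal.mul_ne_top ENNReal.ofReal_ne_top (ENNReal.inv_ne_top.mpr hZ0)) ?_
    intro r hr
    obtain ⟨h1, h2⟩ := tail_bound r hr
    have h3 : ∑' n : ℕ, (if r ≤ n then (n : ℝ≥0∞) *
        (PMF.normalize (fun n => ENNReal.ofReal (cub n)) hZ0 hZ1) n else 0)
        = ENNReal.ofReal (∑' n : ℕ, (if r ≤ n then (n : ℝ) * cub n else 0)) * Z⁻¹ := by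
      rw [ENNReal.ofReal_tsum_of_nonneg _ h2, ← ENNReal.tsum_mul_right]
      · refine tsum_congr fun n => ?_
        split_ifs
        · rw [hval, ENNReal.ofReal_mul (by positivity), ENNReal.ofReal_natCast, mul_assoc]
        · simp
      · intro n
        split_ifs
        · exact mul_nonneg (by positivity) (hcub0 n)
        · exact le_rfl
    rw [h3, ← mul_assoc, ← ENNReal.ofReal_natCast, ← ENNReal.ofReal_mul (by positivity)]
    gcongr

end Pool.Agent.Results.MP_04d7a1_pr.RaysNoPercolation
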